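import Mathlib
import Pool.Agent.Results.MP_497448_gt.NeighbourhoodNotUnique

set_option autoImplicit false

namespace Pool.Agent.Results.MP_497448_gt.EveryRadius

open scoped ENNReal NNReal Pointwise
open MeasureTheory Metric Pool.Agent.Helper752
open Pool.Agent.Results.MP_497448_gt.NeighbourhoodNotUnique

/-! ### Radii `ρ ≥ 2` for the square with corners `(±1, ±1)` -/

/-- Every point at distance at most `ρ ≥ 2` from a good point is at distance at most `ρ` from a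
corner. -/
theorem near_corner_rho {ρ : ℝ} (hρ : 2 ≤ ρ) (x y : E2) (hx : Good x) (h : dist y x ≤ ρ) :
    ∃ sx sy : ℝ, (sx = 1 ∨ sx = -1) ∧ (sy = 1 ∨ sy = -1) ∧ dist y !₂[sx, sy] ≤ ρ := by
  obtain ⟨h0, h1, h2, h3⟩ := hx
  have hρ0 : 0 ≤ ρ := by linarith
  have hs : ∀ a : ℝ, ∃ s : ℝ, (s = 1 ∨ s = -1) ∧ (a - s) ^ 2 = (|a| - 1) ^ 2 := by
    intro a
    rcases le_total 0 a with ha | ha
    · exact ⟨1, Or.inl rfl, by rw [abs_of_nonneg ha]⟩
    · exact ⟨-1, Or.inr rfl, by rw [abs_of_nonpos ha]; ring⟩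
  obtain ⟨sx, hsx, ex⟩ := hs (y 0)
  obtain ⟨sy, hsy, ey⟩ := hs (y 1)
  refine ⟨sx, sy, hsx, hsy, ?_⟩
  rw [EuclideanSpace.dist_eq, Real.sqrt_le_left hρ0] at h ⊢
  simp only [Fin.sum_univ_two, Real.dist_eq, sq_abs] at h ⊢
  have e : (y 0 - (!₂[sx, sy] : E2) 0) ^ 2 + (y 1 - (!₂[sx, sy] : E2) 1) ^ 2
      = (|y 0| - 1) ^ 2 + (|y 1| - 1) ^ 2 := by
    rw [← ex, ← ey]; simp
  rw [e]
  by_contra hlt
  push Not at hlt
  have hab := far_sum (|y 0|) (|y 1|) (abs_nonneg _) (abs_nonneg _) (by nlinarith)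
  have k0 : y 0 * x 0 ≤ |y 0| * |x 0| := by rw [← abs_mul]; exact le_abs_self _
  have k1 : y 1 * x 1 ≤ |y 1| * |x 1| := by rw [← abs_mul]; exact le_abs_self _
  have q0 : |y 0| ^ 2 = y 0 ^ 2 := sq_abs _
  have q1 : |y 1| ^ 2 = y 1 ^ 2 := sq_abs _
  have a0 := abs_nonneg (y 0)
  have a1 := abs_nonneg (y 1)
  have h4 := sq3_pos
  set a := |y 0|
  set b := |y 1|
  set c := |x 0|
  set d := |x 1|
  have hm : 2 - x 0 ^ 2 - x 1 ^ 2 ≤ 2 * (a * (1 - c) + b * (1 - d)) := by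
    rcases le_total c d with hcd | hcd
    · have k : a * (1 - d) ≤ a * (1 - c) := mul_le_mul_of_nonneg_left (by linarith) a0
      have : (1 + √3) * (1 - d) ≤ (a + b) * (1 - d) :=
        mul_le_mul_of_nonneg_right hab (by linarith)
      linarith
    · have k : b * (1 - c) ≤ b * (1 - d) := mul_le_mul_of_nonneg_left (by linarith) a1
      have : (1 + √3) * (1 - c) ≤ (a + b) * (1 - c) :=
        mul_le_mul_of_nonneg_right hab (by linarith)
      linarith
  have e1 : (y 0 - x 0) ^ 2 + (y 1 - x 1) ^ 2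
      = y 0 ^ 2 + y 1 ^ 2 - 2 * (y 0 * x 0) - 2 * (y 1 * x 1) + x 0 ^ 2 + x 1 ^ 2 := by ring
  have e2 : (a - 1) ^ 2 + (b - 1) ^ 2 = a ^ 2 + b ^ 2 - 2 * a - 2 * b + 2 := by ring
  rw [e1] at h
  rw [e2, q0, q1] at hlt
  linarith

/-- The closed `ρ`-neighbourhood. -/
def NN (ρ : ℝ) (S : Set E2) : Set E2 := {x | infDist x S ≤ ρ}

theorem good_SB (x : E2) (hx : x ∈ SB) : Good x := by
  have h : (!₂[x 1, x 0] : E2) ∈ SA ∨ (!₂[-x 1, x 0] : E2) ∈ SA := by
    left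
    have key : ∀ (p q p' q' : ℝ), x ∈ segment ℝ (!₂[p, q] : E2) !₂[p', q'] →
        (!₂[x 1, x 0] : E2) ∈ segment ℝ (!₂[q, p] : E2) !₂[q', p'] := by
      rintro p q p' q' ⟨s, t, hs, ht, hst, rfl⟩
      refine ⟨s, t, hs, ht, hst, ?_⟩
      ext i
      fin_cases i <;> simp
    rcases hx with (((h | h) | h) | h) | h
    · exact Or.inl (Or.inl (Or.inl (Or.inl (key _ _ _ _ h))))
    · exact Or.inl (Or.inl (Or.inl (Or.inr (key _ _ _ _ h))))
    · exact Or.inl (Or.inl (Or.inr (key _ _ _ _ h)))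
    · exact Or.inl (Or.inr (key _ _ _ _ h))
    · exact Or.inr (key _ _ _ _ h)
  rcases h with h | h
  · obtain ⟨g0, g1, g2, g3⟩ := good_SA _ h
    simp only [Matrix.cons_val_zero, Matrix.cons_val_one] at g0 g1 g2 g3
    refine ⟨g1, g0, ?_, ?_⟩
    · linarith
    · linarith
  · obtain ⟨g0, g1, g2, g3⟩ := good_SA _ h
    simp only [Matrix.cons_val_zero, Matrix.cons_val_one, abs_neg, neg_sq]
      at g0 g1 g2 g3
    refine ⟨g1, g0, ?_, ?_⟩
    · linarith
    · linarith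

/-- The two trees have the same closed `ρ`-neighbourhood. -/
theorem nbhd_eq {ρ : ℝ} (hρ : 2 ≤ ρ) : NN ρ SA = NN ρ SB := by
  apply Set.Subset.antisymm
  · intro y hy
    obtain ⟨x, hx, hd⟩ := nbhd_mem SA_compact SA_conn.nonempty hy
    obtain ⟨sx, sy, hsx, hsy, hd'⟩ := near_corner_rho hρ x y (good_SA x hx) hd
    exact nbhd_of_mem (corner_SB sx sy hsx hsy) hd'
  · intro y hy
    obtain ⟨x, hx, hd⟩ := nbhd_mem SB_compact SB_conn.nonempty hy
    obtain ⟨sx, sy, hsx, hsy, hd'⟩ := near_corner_rho hρ x y (good_SB x hx) hd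
    exact nbhd_of_mem (corner_SA sx sy hsx hsy) hd'

theorem NN_compact (ρ : ℝ) {S : Set E2} (hc : IsCompact S) (hn : S.Nonempty) :
    IsCompact (NN ρ S) := by
  apply Metric.isCompact_of_isClosed_isBounded
  · exact isClosed_le (continuous_infDist_pt _) continuous_const
  · have h : NN ρ S ⊆ cthickening ρ S := by
      intro x hx
      obtain ⟨w, hw, hd⟩ := nbhd_mem hc hn hx
      exact mem_cthickening_of_dist_le x w ρ S hw hd
    exact hc.isBounded.cthickening.subset h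

/-- Lower bound: any connected compact set whose closed `ρ`-neighbourhood contains the closed
`ρ`-neighbourhood of the tree has length at least `2 + 2 √3`. -/
theorem lower_rho {ρ : ℝ} (hρ : 0 < ρ) (S : Set E2) (h : Covers (NN ρ SA) ρ S) :
    ENNReal.ofReal (2 + 2 * √3) ≤ μH[1] S := by
  obtain ⟨hc, hS, hM⟩ := h
  refine Hull.hull_lower hc hS ?_
  intro sx sy hsx hsy P Q hP hQ
  have hsx2 : sx ^ 2 = 1 := by rcases hsx with rfl | rfl <;> norm_num
  have hsy2 : sy ^ 2 = 1 := by rcases hsy with rfl | rfl <;> norm_num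
  rcases eq_or_lt_of_le (Real.sqrt_nonneg (P ^ 2 + Q ^ 2)) with h0 | h0
  · have h1 : P ^ 2 + Q ^ 2 = 0 := by
      have := Real.sqrt_eq_zero'.1 h0.symm
      nlinarith [sq_nonneg P, sq_nonneg Q]
    have hP0 : P = 0 := by nlinarith [sq_nonneg P, sq_nonneg Q]
    have hQ0 : Q = 0 := by nlinarith [sq_nonneg P, sq_nonneg Q]
    obtain ⟨p, hp⟩ := hS.nonempty
    exact ⟨p, hp, by rw [hP0, hQ0]; simp⟩
  · set N := √(P ^ 2 + Q ^ 2) with hN
    have hN2 : N ^ 2 = P ^ 2 + Q ^ 2 := by rw [hN, Real.sq_sqrt (by positivity)]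
    have hN0 : N ≠ 0 := h0.ne'
    have hPQ : (P / N) ^ 2 + (Q / N) ^ 2 = 1 := by
      rw [div_pow, div_pow, ← add_div, ← hN2, div_self (by positivity)]
    have hy : (!₂[sx + ρ * (sx * P / N), sy + ρ * (sy * Q / N)] : E2) ∈ NN ρ SA := by
      refine nbhd_of_mem (corner_SA sx sy hsx hsy) ?_
      apply dist_le_of _ _ _ _ _ hρ.le
      have e : (sx + ρ * (sx * P / N) - sx) ^ 2 + (sy + ρ * (sy * Q / N) - sy) ^ 2
          = ρ ^ 2 * (sx ^ 2 * (P / N) ^ 2 + sy ^ 2 * (Q / N) ^ 2) := by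
        ring
      rw [e, hsx2, hsy2, one_mul, one_mul, hPQ, mul_one]
    obtain ⟨p, hpS, hpd⟩ := nbhd_mem hc hS.nonempty (hM hy)
    refine ⟨p, hpS, ?_⟩
    rw [EuclideanSpace.dist_eq, Real.sqrt_le_left hρ.le] at hpd
    simp only [Fin.sum_univ_two, Real.dist_eq, sq_abs] at hpd
    have hpd' : (p 0 - sx - ρ * (sx * P / N)) ^ 2 + (p 1 - sy - ρ * (sy * Q / N)) ^ 2 ≤
        ρ ^ 2 := by
      refine le_trans (le_of_eq ?_) hpd
      simp
      ring
    set X := sx * p 0 - 1 with hX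
    set Y := sy * p 1 - 1 with hY
    have e0 : p 0 - sx - ρ * (sx * P / N) = sx * (X - ρ * (P / N)) := by
      rw [hX]
      have : sx * (sx * p 0 - 1 - ρ * (P / N)) = sx ^ 2 * p 0 - sx - ρ * (sx * P / N) := by ring
      rw [this, hsx2]; ring
    have e1 : p 1 - sy - ρ * (sy * Q / N) = sy * (Y - ρ * (Q / N)) := by
      rw [hY]
      have : sy * (sy * p 1 - 1 - ρ * (Q / N)) = sy ^ 2 * p 1 - sy - ρ * (sy * Q / N) := by ring
      rw [this, hsy2]; ring
    rw [e0, e1, mul_pow, mul_pow, hsx2, hsy2, one_mul, one_mul] at hpd'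
    have h5 : 0 ≤ (P / N) * X + (Q / N) * Y := by
      have e5 : (X - ρ * (P / N)) ^ 2 + (Y - ρ * (Q / N)) ^ 2 =
          X ^ 2 + Y ^ 2 - 2 * ρ * ((P / N) * X + (Q / N) * Y) +
            ρ ^ 2 * ((P / N) ^ 2 + (Q / N) ^ 2) := by ring
      rw [e5, hPQ, mul_one] at hpd'
      have h7 : 0 ≤ 2 * ρ * ((P / N) * X + (Q / N) * Y) := by
        nlinarith [sq_nonneg X, sq_nonneg Y]
      exact nonneg_of_mul_nonneg_right h7 (by positivity)
    have h6 : P * X + Q * Y = N * ((P / N) * X + (Q / N) * Y) := by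
      field_simp
    rw [h6]
    exact mul_nonneg h0.le h5

theorem covers_self (ρ : ℝ) {S : Set E2} (hc : IsCompact S) (hS : IsConnected S) :
    Covers (NN ρ S) ρ S := ⟨hc, hS, fun _ hx => hx⟩

theorem minA {ρ : ℝ} (hρ : 2 ≤ ρ) : IsRMinimizer (NN ρ SA) ρ SA :=
  ⟨covers_self ρ SA_compact SA_conn, fun S hS => SA_len.trans (lower_rho (by linarith) S hS)⟩

theorem minB {ρ : ℝ} (hρ : 2 ≤ ρ) : IsRMinimizer (NN ρ SA) ρ SB := by
  refine ⟨?_, fun S hS => SB_len.trans (lower_rho (by linarith) S hS)⟩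
  rw [nbhd_eq hρ]
  exact covers_self ρ SB_compact SB_conn

theorem len_SA : μH[1] SA = ENNReal.ofReal (2 + 2 * √3) :=
  le_antisymm SA_len (lower_rho (ρ := 2) (by norm_num) SA (covers_self 2 SA_compact SA_conn))

theorem len_SB : μH[1] SB = ENNReal.ofReal (2 + 2 * √3) :=
  le_antisymm SB_len (lower_rho (ρ := 2) (by norm_num) SB (minB le_rfl).1)

/-! ### Scaling -/

theorem nbhd_smul {c : ℝ} (hc : 0 < c) (ρ : ℝ) (S : Set E2) :
    NN (c * ρ) (c • S) = c • NN ρ S := by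
  ext x
  rw [Set.mem_smul_set_iff_inv_smul_mem₀ hc.ne']
  have h := infDist_smul₀ hc.ne' S (c⁻¹ • x)
  rw [smul_inv_smul₀ hc.ne', Real.norm_of_nonneg hc.le] at h
  simp only [NN, Set.mem_ofPred_eq]
  rw [h]
  exact mul_le_mul_iff_right₀ hc

theorem covers_smul {c : ℝ} (hc : 0 < c) {M S : Set E2} {ρ : ℝ} (h : Covers M ρ S) :
    Covers (c • M) (c * ρ) (c • S) := by
  obtain ⟨h1, h2, h3⟩ := h
  refine ⟨h1.smul c, ?_, ?_⟩
  · exact h2.image _ (continuous_const_smul c).continuousOn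
  · have h4 := nbhd_smul hc ρ S
    unfold NN at h4
    rw [h4]
    exact Set.smul_set_mono h3

theorem len_smul {c : ℝ} (hc : 0 < c) (S : Set E2) :
    μH[1] (c • S) = ENNReal.ofReal c * μH[1] S := by
  rw [Measure.hausdorffMeasure_smul₀ zero_le_one hc.ne']
  have h : ‖c‖₊ = c.toNNReal := by
    ext
    rw [coe_nnnorm, Real.norm_of_nonneg hc.le, Real.coe_toNNReal _ hc.le]
  rw [NNReal.rpow_one, h, ENNReal.smul_def, smul_eq_mul]
  rfl

theorem min_smul {c : ℝ} (hc : 0 < c) {M S : Set E2} {ρ : ℝ} (h : IsRMinimizer M ρ S) :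
    IsRMinimizer (c • M) (c * ρ) (c • S) := by
  refine ⟨covers_smul hc h.1, ?_⟩
  intro S' hS'
  have h1 := covers_smul (inv_pos.2 hc) hS'
  rw [inv_smul_smul₀ hc.ne', inv_mul_cancel_left₀ hc.ne'] at h1
  have h2 := h.2 _ h1
  have h3 : μH[1] S' = ENNReal.ofReal c * μH[1] (c⁻¹ • S') := by
    rw [← len_smul hc, smul_inv_smul₀ hc.ne']
  rw [len_smul hc, h3]
  gcongr

/-- For every radius `r > 0` and every length `0 < L ≤ (1 + √3) r` there are a compact set `M` in the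
plane and two different `r`-minimizers `S₁`, `S₂` for `M`, both of length `L`, with the same closed
`r`-neighbourhood `M`; so neither of them is the only `r`-minimizer for its own closed
`r`-neighbourhood. -/
theorem result : ∀ r : ℝ, 0 < r → ∀ L : ℝ, 0 < L → L ≤ (1 + √3) * r →
    ∃ (M : Set (EuclideanSpace ℝ (Fin 2))) (S₁ S₂ : Set (EuclideanSpace ℝ (Fin 2))),
      IsCompact M ∧ S₂ ≠ S₁ ∧ IsRMinimizer M r S₁ ∧ IsRMinimizer M r S₂ ∧
      μH[1] S₁ = ENNReal.ofReal L ∧ μH[1] S₂ = ENNReal.ofReal L ∧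
      {x | infDist x S₁ ≤ r} = M ∧ {x | infDist x S₂ ≤ r} = M := by
  intro r hr L hL hLr
  have h4 := sq3_pos
  have h2 : 0 < 2 + 2 * √3 := by positivity
  set c : ℝ := L / (2 + 2 * √3) with hc
  have hc0 : 0 < c := by positivity
  set ρ : ℝ := r / c with hρ
  have hcρ : c * ρ = r := by rw [hρ]; field_simp
  have hρ2 : 2 ≤ ρ := by
    rw [hρ, le_div_iff₀ hc0, hc]
    rw [mul_div_assoc', div_le_iff₀ h2]
    nlinarith
  have hlen : ENNReal.ofReal c * ENNReal.ofReal (2 + 2 * √3) = ENNReal.ofReal L := by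
    rw [← ENNReal.ofReal_mul hc0.le]
    congr 1
    rw [hc]
    field_simp
  refine ⟨c • NN ρ SA, c • SA, c • SB, (NN_compact ρ SA_compact SA_conn.nonempty).smul c, ?_,
    ?_, ?_, ?_, ?_, ?_, ?_⟩
  · intro h
    apply SA_ne_SB
    have := congrArg (fun T : Set E2 => c⁻¹ • T) h
    simpa [inv_smul_smul₀ hc0.ne'] using this
  · rw [← hcρ]
    exact min_smul hc0 (minA hρ2)
  · rw [← hcρ]
    exact min_smul hc0 (minB hρ2)
  · rw [len_smul hc0, len_SA, hlen]
  · rw [len_smul hc0, len_SB, hlen]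
  · have h := nbhd_smul hc0 ρ SA
    rw [hcρ] at h
    exact h
  · have h := nbhd_smul hc0 ρ SB
    rw [hcρ, ← nbhd_eq hρ2] at h
    exact h

end Pool.Agent.Results.MP_497448_gt.EveryRadius
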